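import Pool.Agent.H.MP_6f07cb_gt.A

set_option autoImplicit false

namespace Pool.Agent.Results.MP_6f07cb_gt.No

open FreeGroup

abbrev F3 := FreeGroup (Fin 3)

/-- `x_i ↦ x_i x_j x_i⁻¹`, `x_j ↦ x_i`, other generators fixed. -/
def sg (i j : Fin 3) : F3 →* F3 := FreeGroup.lift fun k =>
  if k = i then of i * of j * (of i)⁻¹ else if k = j then of i else of k

/-- the inverse substitution -/
def sgi (i j : Fin 3) : F3 →* F3 := FreeGroup.lift fun k =>
  if k = i then of j else if k = j then (of j)⁻¹ * of i * of j else of k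

/-- Artin automorphism of the generator `σ_{i+1}` of `B_3` -/
def artin (i : Fin 2) : MulAut F3 := MonoidHom.toMulEquiv (sg i.castSucc i.succ)
  (sgi i.castSucc i.succ)
  (by ext k; fin_cases i <;> fin_cases k <;> simp [sg, sgi, mul_assoc])
  (by ext k; fin_cases i <;> fin_cases k <;> simp [sg, sgi, mul_assoc])

/-- Artin automorphism of a braid word -/
def art : FreeGroup (Fin 2) →* MulAut F3 := FreeGroup.lift artin

abbrev E := HahnSeries ℚ ℝ

noncomputable def t : E := HahnSeries.single 1 1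

lemma t_ne : t ≠ 0 := HahnSeries.single_ne_zero one_ne_zero

/-- reduced Burau matrices of `σ_1`, `σ_2`, evaluated at a nonzero element `t` of a field -/
noncomputable def burau {K : Type} [Field K] (t : K) (ht : t ≠ 0) (i : Fin 2) :
    (Matrix (Fin 2) (Fin 2) K)ˣ :=
  if i = 0 then
    ⟨!![-t, 1; 0, 1], !![-t⁻¹, t⁻¹; 0, 1],
      by simp [ht, Matrix.one_fin_two], by simp [ht, Matrix.one_fin_two]⟩
  else
    ⟨!![1, 0; t, -t], !![1, 0; 1, -t⁻¹],
      by simp [ht, Matrix.one_fin_two], by simp [ht, Matrix.one_fin_two]⟩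

/-- reduced Burau matrix of a braid word -/
noncomputable def bur : FreeGroup (Fin 2) →* (Matrix (Fin 2) (Fin 2) E)ˣ :=
  FreeGroup.lift (burau t t_ne)

lemma comp {K : Type} [Field K] (t : K) (ht : t ≠ 0) (x : K)
    (hr : ((FreeGroup.lift (burau t ht) ((of 0 * of 0) * (of 1 * of 1) * (of 0 * of 0)⁻¹ *
      (of 1 * of 1)⁻¹) : (Matrix (Fin 2) (Fin 2) K)ˣ) :
        Matrix (Fin 2) (Fin 2) K).charpoly.IsRoot x) : ∃ r : K, x ^ 2 - r * x + 1 = 0 ∧
      t ^ 3 * r = -t ^ 6 + 3 * t ^ 5 - 3 * t ^ 4 + 4 * t ^ 3 - 3 * t ^ 2 + 3 * t - 1 := by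
  rw [Matrix.charpoly_fin_two, MonoidHom.map_mul, MonoidHom.map_mul, MonoidHom.map_mul, MonoidHom.map_inv, MonoidHom.map_inv, MonoidHom.map_mul, MonoidHom.map_mul,
    lift_apply_of, lift_apply_of] at hr
  simp only [mul_inv_rev, Units.val_mul, burau,
    Units.inv_mk, if_true, one_ne_zero, if_false, Matrix.mul_fin_two, Matrix.trace_fin_two_of,
    Matrix.det_fin_two_of, Polynomial.IsRoot, Polynomial.eval_add, Polynomial.eval_sub,
    Polynomial.eval_mul, Polynomial.eval_pow, Polynomial.eval_C, Polynomial.eval_X] at hr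
  refine ⟨3 * (t + t⁻¹) ^ 2 - (t + t⁻¹) ^ 3 - 2, ?_, ?_⟩
  · rw [← hr]
    field_simp
    ring
  · field_simp
    ring

lemma key {K : Type} [CommRing K] [LinearOrder K] [IsStrictOrderedRing K] (t x r : K) (h0 : 0 < t)
    (h1 : 4 * t < 1) (hx : 0 < x)
    (h : t ^ 3 * r = -t ^ 6 + 3 * t ^ 5 - 3 * t ^ 4 + 4 * t ^ 3 - 3 * t ^ 2 + 3 * t - 1) :
    x ^ 2 - r * x + 1 ≠ 0 := by
  have a1 : t ^ 5 ≤ t ^ 4 := by nlinarith [pow_pos h0 4]
  have a2 : 4 * t ^ 3 ≤ t ^ 2 := by nlinarith [pow_pos h0 2]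
  have a3 : t ^ 3 * r < 0 := by nlinarith [pow_pos h0 6, pow_pos h0 2]
  have a4 : r < 0 := neg_of_mul_neg_left (by rwa [mul_comm] at a3) (pow_pos h0 3).le
  nlinarith [mul_pos hx hx, mul_pos (neg_pos.2 a4) hx]

def Pure (φ : MulAut F3) : Prop := ∀ k, IsConj (of k) (φ (of k))

lemma Pure.mul {φ ψ : MulAut F3} (h1 : Pure φ) (h2 : Pure ψ) : Pure (φ * ψ) := fun k =>
  (h1 k).trans (φ.toMonoidHom.map_isConj (h2 k))

lemma Pure.inv {φ : MulAut F3} (h1 : Pure φ) : Pure φ⁻¹ := fun k => by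
  have := (φ⁻¹).toMonoidHom.map_isConj (h1 k)
  simpa using this.symm

lemma pure_sq (i : Fin 2) : Pure (artin i * artin i) := by
  intro k
  rw [isConj_iff]
  fin_cases i <;> fin_cases k
  · exact ⟨of 0 * of 1, by simp [artin, sg, mul_assoc]⟩
  · exact ⟨of 0, by simp [artin, sg, mul_assoc]⟩
  · exact ⟨1, by simp [artin, sg, mul_assoc]⟩
  · exact ⟨1, by simp [artin, sg, mul_assoc]⟩
  · exact ⟨of 1 * of 2, by simp [artin, sg, mul_assoc]⟩
  · exact ⟨of 1, by simp [artin, sg, mul_assoc]⟩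

theorem result : ∃ w : FreeGroup (Fin 2),
    (∃ r : F3 → F3 → Prop, IsStrictTotalOrder F3 r ∧
      (∀ a b x y, r a b → r (x * a * y) (x * b * y)) ∧
      ∀ a b, r a b ↔ r (art w a) (art w b)) ∧
    ∀ x : E, 0 < x.leadingCoeff → ¬ (bur w : Matrix (Fin 2) (Fin 2) E).charpoly.IsRoot x := by
  refine ⟨(of 0 * of 0) * (of 1 * of 1) * (of 0 * of 0)⁻¹ * (of 1 * of 1)⁻¹, ?_, ?_⟩
  · obtain ⟨P, hP, h⟩ := Pool.Agent.H.MP_6f07cb_gt.cone_inv (Fin 3)
    have hp : Pure (art ((of 0 * of 0) * (of 1 * of 1) * (of 0 * of 0)⁻¹ * (of 1 * of 1)⁻¹)) := by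
      rw [MonoidHom.map_mul, MonoidHom.map_mul, MonoidHom.map_mul, MonoidHom.map_inv, MonoidHom.map_inv, MonoidHom.map_mul, MonoidHom.map_mul, art, lift_apply_of,
        lift_apply_of]
      exact (((pure_sq 0).mul (pure_sq 1)).mul (pure_sq 0).inv).mul (pure_sq 1).inv
    generalize art _ = φ at hp
    refine ⟨fun a b => a⁻¹ * b ∈ P, ?_, fun a b x y hab => ?_, fun a b => ⟨fun hab => ?_, fun hab => ?_⟩⟩
    · refine
        { trichotomous := fun a b h1 h2 => ?_
          irrefl := fun a h1 => ?_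
          trans := fun a b c h1 h2 => ?_ }
      · by_contra e
        rcases hP.total (a⁻¹ * b) (fun h' => e (inv_mul_eq_one.1 h')) with h3 | h3
        · exact h1 h3
        · exact h2 (by simpa using h3)
      · exact hP.one (by simpa using h1)
      · simpa [mul_assoc] using hP.mul _ h1 _ h2
    · simpa [mul_assoc] using hP.conj _ hab y⁻¹
    · simpa using h φ.toMonoidHom hp _ hab
    · simpa using h (φ⁻¹).toMonoidHom hp.inv _ hab
  · intro x hx hr
    obtain ⟨r, e, e2⟩ := comp t t_ne x hr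
    refine key (K := Lex E) (toLex t) (toLex x) (toLex r) ?_ ?_
      (HahnSeries.leadingCoeff_pos_iff.1 hx) e2 e
    · exact HahnSeries.leadingCoeff_pos_iff.1 (by simp [t])
    · rw [HahnSeries.lt_iff]
      refine ⟨0, fun j hj => ?_, ?_⟩
      · change ((4 : E) * t).coeff j = (1 : E).coeff j
        have : (4 : E) * t = t + t + t + t := by ring
        rw [this]
        have h1 : j ≠ 1 := by linarith
        simp [t, HahnSeries.coeff_single_of_ne, h1, hj.ne]
      · change ((4 : E) * t).coeff 0 < (1 : E).coeff 0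
        have : (4 : E) * t = t + t + t + t := by ring
        rw [this]
        simp [t]

end Pool.Agent.Results.MP_6f07cb_gt.No
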